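import Pool.Agent.Lib.MP_efa496_an.Sh.Main
import Pool.Agent.Lib.MP_efa496_an.Sh.Low

/-!
For every domain and all `k ≤ q`: divisorial submodules of local rank `k` are always
over-saturated if and only if `k ≤ 1`.
-/

set_option autoImplicit false

open Pool.Agent.Lib.MP_efa496_an.Sh

theorem Pool.Agent.Results.MP_efa496_an.Threshold.result (G : Set ℂ) (hG : IsOpen G)
    (hc : IsConnected G) (q k : ℕ) (hq : k ≤ q) (strict : Prop) :
    (∀ (E : Type) [AddCommGroup E] [Module ℂ E] [TopologicalSpace E] (ι : E → ℂ → Fin q → ℂ),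
      TopMod G ι → UnifStab G ι → CondThree G ι → ∀ I : Submodule ℂ E, Divis G ι I →
        Rank G ι I k → (strict → Extra G ι I) → OverSat G ι I k) ↔ k ≤ 1 := by
  refine ⟨fun h => not_lt.1 fun hk => ?_, fun hk E _ _ _ ι h1 _ h3 I h4 h5 _ => ?_⟩
  · obtain ⟨E, _, _, _, ι, h1, h2, h3, I, h4, h5, h6, h7⟩ := high (q := q) hG hc.nonempty hk hq
    exact h7 (h E ι h1 h2 h3 I h4 h5 fun _ => h6)
  · interval_cases k
    · exact overSat_zero ι I
    · exact overSat_one hG hc h1 h3 h4 h5
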